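import Pool.Agent.H82.Hur

set_option autoImplicit false

namespace Pool.Agent.Results.MP_8652de_gt.NotHurewicz

universe u

open Pool.Agent.H82.Hur in
theorem result : ∀ (X : Type u) (T₁ T₂ : TopologicalSpace X),
    (∀ U : Set X, @IsOpen X T₂ U → @IsOpen X T₁ U) →
    @CompactSpace X T₂ → @T2Space X T₂ → IndLeZero T₁ → ¬ IndLeZero T₂ → ¬ Hurewicz T₁ := by
  intro X T₁ T₂ h hc h2 h0 h1
  refine @main X T₂ hc h2 (@IsOpen X T₁) (@Fine.mk X T₂ _ (fun a b => @IsOpen.union X a b T₁) h)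
    (fun p O hO hp => ?_) h1
  obtain ⟨V, a, b, c, d⟩ := h0 p O hO hp
  exact ⟨V, a, b, c, @IsClosed.isOpen_compl X T₁ V ((@isClopen_iff_frontier_eq_empty X T₁ V).2 d).1⟩

end Pool.Agent.Results.MP_8652de_gt.NotHurewicz
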